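import Mathlib
import Pool.Agent.MP_c73427_an.Defs
import Pool.Agent.Mg.Fc73427.Gf7c665

open Pool.Agent.MP_c73427_an

universe u v w w₁ w₂

/-- For every Tychonoff space `X`, if the free locally convex space `V = L(X)` is multi-reflexive
then it is a Schwartz space. -/
theorem Pool.Agent.Results.MP_c73427_an.MultiReflexiveImpliesSchwartz.result
    (X : Type u) [TopologicalSpace X] [T35Space X]
    (V : Type v) [AddCommGroup V] [Module ℝ V] [TopologicalSpace V] [IsTopologicalAddGroup V]
    [ContinuousSMul ℝ V] [LocallyConvexSpace ℝ V] [T2Space V]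
    (ι : X → V) (hι : IsFreeLCS.{u, v, w} ι) :
    IsMultiReflexive.{v, w₁, w₂} V → IsSchwartz.{v, w} V :=
  isSchwartz_of_isMultiReflexive ι hι
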